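import Pool.Agent.U464.PD.Quad

/-!
# Quadratic polynomials at integers with restricted digits: the prediction of Hardy and Littlewood
-/

set_option autoImplicit false

namespace Pool.Agent.U464.PD

open Finset Filter Polynomial
open Pool.Agent.Y816.PD (WG ND NA NA_nonneg WG_bounds TP TP_dvd)

/-- the set of the `m` in `[b ^ K t, b ^ K (t + 1))` whose `i`-th digit in base `b` belongs to `A i` for all `i < K`,
such that all prime factors of `a m ^ 2 + e m + c` are larger than `b ^ (K / r)` -/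
def roughQ (a e c : ℤ) (b K t r : ℕ) (A : ℕ → Finset ℕ) : Set ℕ :=
  {m | b ^ K * t ≤ m ∧ m < b ^ K * (t + 1) ∧ (∀ i < K, m / b ^ i % b ∈ A i) ∧
    ∀ q : ℕ, q.Prime → (q : ℤ) ∣ a * (m : ℤ) ^ 2 + e * m + c → b ^ K < q ^ r}

/-- the elements `m` of `roughQ` for which `a m ^ 2 + e m + c` has at most `r` prime factors -/
def almostQ (a e c : ℤ) (b K t r : ℕ) (A : ℕ → Finset ℕ) : Set ℕ :=
  {m | m ∈ roughQ a e c b K t r A ∧ (a * (m : ℤ) ^ 2 + e * m + c).natAbs.primeFactorsList.length ≤ r}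

theorem quad (D : ℕ) :
    ∃ δ : ℝ, 0 < δ ∧ ∃ r₀ : ℕ, 2 ≤ r₀ ∧ ∀ r : ℕ, r₀ ≤ r → ∀ b : ℕ, 2 ≤ b → ∃ κ C : ℝ, 0 < κ ∧ 0 < C ∧
      ∀ᶠ K : ℕ in atTop, ∀ a e c : ℤ, a ≠ 0 → |a| ≤ (b : ℤ) ^ (D * K) → |e| ≤ (b : ℤ) ^ (D * K) →
        |c| ≤ (b : ℤ) ^ (D * K) → ¬ ((2 : ℤ) ∣ a + e ∧ (2 : ℤ) ∣ c) →
        (∀ p : ℕ, p.Prime → ¬ ((p : ℤ) ∣ a ∧ (p : ℤ) ∣ e ∧ (p : ℤ) ∣ c)) →
        ∀ t : ℕ, t ≤ b ^ (D * K) →
        ∀ A : ℕ → Finset ℕ, (∀ i < K, A i ⊆ range b) → (b : ℝ) ^ K ≤ Real.exp (δ * K) * NA K A →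
          ((∃ d ∈ A 0, (a * (d : ℤ) ^ 2 + e * d + c).natAbs.Coprime b) →
            κ * NA K A * (eps a e * partialC a e c (b ^ K) * gcdProd a e / K) ≤
              ((almostQ a e c b K t r A).ncard : ℝ)) ∧
          ((roughQ a e c b K t r A).ncard : ℝ) ≤
            C * NA K A * (eps a e * partialC a e c (b ^ K) * gcdProd a e / K) := by
  classical
  obtain ⟨δ, hδ, r0, hr0, h⟩ := win 2 (3 * D + 6) (by norm_num)
  refine ⟨δ, hδ, r0, hr0, fun r hr b hb => ?_⟩
  obtain ⟨κ, C, hκ, hC, h1⟩ := h r hr b hb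
  obtain ⟨v, Cv, hv, hCv, hW⟩ := WG_bounds {0} (fun p hp => ⟨1, fun h hh hd => by
    rw [mem_singleton] at hh
    subst hh
    exact hp.one_lt.ne' (Nat.dvd_one.1 hd)⟩) 1 (card_singleton 0) b hb
  refine ⟨κ * v / 2 ^ D, C * Cv, by positivity, by positivity, ?_⟩
  filter_upwards [h1, hW, eventually_ge_atTop 1] with K hK hWK hK1 a e c ha0 ha he hc hpar hg t ht A hA hprod
  have hNA := NA_nonneg K A
  have hbK2 : 2 ≤ b ^ K := by
    calc 2 = 2 ^ 1 := by norm_num
      _ ≤ 2 ^ K := Nat.pow_le_pow_right (by norm_num) (by omega)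
      _ ≤ b ^ K := Nat.pow_le_pow_left hb K
  have hadm : ∀ p : ℕ, p.Prime → ∃ n : ℕ, ¬ (p : ℤ) ∣ (qp a e c).eval (n : ℤ) := by
    intro p hp
    by_contra hcon
    push Not at hcon
    have h0 := hcon 0
    have h1' := hcon 1
    have h2' := hcon 2
    rw [qp_eval] at h0 h1' h2'
    push_cast at h0 h1' h2'
    have c0 : (p : ℤ) ∣ c := by simpa using h0
    have c1 : (p : ℤ) ∣ a + e := by
      have : (p : ℤ) ∣ (a * 1 ^ 2 + e * 1 + c) - c := dvd_sub h1' c0
      have e1 : (a * 1 ^ 2 + e * 1 + c) - c = a + e := by ring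
      rwa [e1] at this
    rcases eq_or_ne p 2 with h2 | h2
    · subst h2
      exact hpar ⟨c1, c0⟩
    · have c2 : (p : ℤ) ∣ 2 * a := by
        have : (p : ℤ) ∣ (a * 2 ^ 2 + e * 2 + c) - c - 2 * (a + e) := dvd_sub (dvd_sub h2' c0) (c1.mul_left 2)
        have e1 : (a * 2 ^ 2 + e * 2 + c) - c - 2 * (a + e) = 2 * a := by ring
        rwa [e1] at this
      have c3 : (p : ℤ) ∣ a := by
        rcases (Nat.prime_iff_prime_int.1 hp).dvd_or_dvd c2 with h3 | h3
        · exfalso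
          apply h2
          have h4 : p ∣ 2 := by exact_mod_cast h3
          exact (Nat.prime_dvd_prime_iff_eq hp Nat.prime_two).1 h4
        · exact h3
      have c4 : (p : ℤ) ∣ e := (Int.dvd_add_right c3).1 c1
      exact hg p hp ⟨c3, c4, c0⟩
  have hsize : ∀ m : ℕ, b ^ K * t ≤ m → m < b ^ K * (t + 1) →
      ((qp a e c).eval (m : ℤ)).natAbs ≤ b ^ ((3 * D + 6) * K) := by
    intro m _ hm
    rw [qp_eval]
    obtain ⟨x, hx⟩ : ∃ x, x = b ^ K := ⟨_, rfl⟩
    obtain ⟨y, hy⟩ : ∃ y, y = b ^ (D * K) := ⟨_, rfl⟩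
    have e1 : b ^ ((3 * D + 6) * K) = y ^ 3 * x ^ 6 := by
      rw [hx, hy, ← pow_mul, ← pow_mul, ← pow_add]; congr 1; ring
    have hy1 : 1 ≤ y := by rw [hy]; exact Nat.one_le_pow _ _ (by omega)
    rw [← hx] at hm hbK2
    rw [← hy] at ht
    have hm2 : m ≤ y * x ^ 2 := by
      calc m ≤ x * (t + 1) := hm.le
        _ ≤ x * (y + 1) := Nat.mul_le_mul_left _ (by omega)
        _ ≤ x * (y * x) := Nat.mul_le_mul_left _ (by nlinarith)
        _ = y * x ^ 2 := by ring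
    have ha' : a.natAbs ≤ y := by
      have : ((a.natAbs : ℕ) : ℤ) ≤ (y : ℤ) := by rw [Int.natCast_natAbs, hy]; push_cast; exact ha
      exact_mod_cast this
    have he' : e.natAbs ≤ y := by
      have : ((e.natAbs : ℕ) : ℤ) ≤ (y : ℤ) := by rw [Int.natCast_natAbs, hy]; push_cast; exact he
      exact_mod_cast this
    have hc' : c.natAbs ≤ y := by
      have : ((c.natAbs : ℕ) : ℤ) ≤ (y : ℤ) := by rw [Int.natCast_natAbs, hy]; push_cast; exact hc
      exact_mod_cast this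
    have e2 : (a * (m : ℤ) ^ 2 + e * m + c).natAbs ≤ a.natAbs * m ^ 2 + e.natAbs * m + c.natAbs := by
      refine (Int.natAbs_add_le _ _).trans (Nat.add_le_add_right ((Int.natAbs_add_le _ _).trans ?_) _)
      rw [Int.natAbs_mul, Int.natAbs_mul, Int.natAbs_pow, Int.natAbs_natCast]
    refine e2.trans ?_
    rw [e1]
    have hmm : m ^ 2 ≤ (y * x ^ 2) ^ 2 := Nat.pow_le_pow_left hm2 2
    have hm1 : m ≤ (y * x ^ 2) ^ 2 := hm2.trans (Nat.le_self_pow (by norm_num) _)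
    have h1m : 1 ≤ (y * x ^ 2) ^ 2 := Nat.one_le_pow _ _ (Nat.mul_pos hy1 (by positivity))
    calc a.natAbs * m ^ 2 + e.natAbs * m + c.natAbs
        ≤ y * (y * x ^ 2) ^ 2 + y * (y * x ^ 2) ^ 2 + y * (y * x ^ 2) ^ 2 := by
          apply Nat.add_le_add (Nat.add_le_add (Nat.mul_le_mul ha' hmm) (Nat.mul_le_mul he' hm1))
          exact hc'.trans (Nat.le_mul_of_pos_right _ h1m)
      _ = 3 * (y ^ 3 * x ^ 4) := by ring
      _ ≤ x ^ 2 * (y ^ 3 * x ^ 4) := Nat.mul_le_mul_right _ (by nlinarith)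
      _ = y ^ 3 * x ^ 6 := by ring
  obtain ⟨h2, h3⟩ := hK (qp a e c) (qp_deg a e c) hadm t hsize A hA hprod
  obtain ⟨hW1, hW2⟩ := hWK 0
  rw [pow_one] at hW1 hW2
  rw [V_split a e c _ hbK2 hpar hg] at h2 h3
  have haD : a.natAbs ≤ (b ^ K) ^ D := by
    have : ((a.natAbs : ℕ) : ℤ) ≤ (((b ^ K) ^ D : ℕ) : ℤ) := by
      rw [Int.natCast_natAbs, ← pow_mul, mul_comm K D]; push_cast; exact ha
    exact_mod_cast this
  obtain ⟨hP1, hP2⟩ := gcd_bounds a e (b ^ K) D hbK2 haD ha0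
  have hK0 : (0 : ℝ) < K := by exact_mod_cast (by omega : 0 < K)
  have hWG0 : 0 ≤ WG (TP {0} 0) (b ^ K) := le_trans (by positivity) hW1
  have heps : 0 ≤ eps a e := by unfold eps; split_ifs <;> norm_num
  have hpc : 0 ≤ partialC a e c (b ^ K) := by
    unfold partialC
    apply prod_nonneg
    intro p hp
    rw [mem_filter, mem_Icc] at hp
    have h3' : (3 : ℝ) ≤ p := by exact_mod_cast hp.1.1
    have hj : ((jacobiSym (e ^ 2 - 4 * a * c) p : ℤ) : ℝ) ≤ 1 := by
      rcases jacobiSym.trichotomy (e ^ 2 - 4 * a * c) p with h | h | h <;> rw [h] <;> norm_num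
    rw [sub_nonneg, div_le_one (by linarith)]
    linarith
  have hgp : 0 ≤ gcdProd a e := by
    unfold gcdProd
    apply prod_nonneg
    intro p hp
    rw [mem_filter] at hp
    have h3' : (3 : ℝ) ≤ p := by exact_mod_cast hp.2
    exact div_nonneg (by linarith) (by linarith)
  have hPP := le_trans (div_nonneg hgp (by positivity : (0 : ℝ) ≤ 2 ^ D)) hP1
  constructor
  · rintro ⟨d, hd, hcop⟩
    have h4 := h2 ⟨d, hd, by rw [qp_eval]; exact hcop⟩
    have h5 : almostP (qp a e c) b K t r A = almostQ a e c b K t r A := by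
      ext m
      unfold almostP almostQ roughP roughQ
      simp only [Set.mem_ofPred_eq, qp_eval]
    rw [h5] at h4
    refine le_trans ?_ h4
    calc κ * v / 2 ^ D * NA K A * (eps a e * partialC a e c (b ^ K) * gcdProd a e / K) =
        κ * NA K A * ((v / K) * (eps a e * partialC a e c (b ^ K) * (gcdProd a e / 2 ^ D))) := by ring
      _ ≤ _ := by
          apply mul_le_mul_of_nonneg_left _ (by positivity)
          apply mul_le_mul hW1 _ (by positivity) hWG0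
          exact mul_le_mul_of_nonneg_left hP1 (by positivity)
  · have h5 : roughP (qp a e c) b K t r A = roughQ a e c b K t r A := by
      ext m
      unfold roughP roughQ
      simp only [Set.mem_ofPred_eq, qp_eval]
    rw [h5] at h3
    refine h3.trans ?_
    calc C * NA K A * (WG (TP {0} 0) (b ^ K) * (eps a e * partialC a e c (b ^ K) *
        ∏ p ∈ (Icc 3 (b ^ K)).filter (fun p : ℕ => p.Prime ∧ (p : ℤ) ∣ a ∧ (p : ℤ) ∣ e), (p : ℝ) / (p - 1)))
        ≤ C * NA K A * (Cv / K * (eps a e * partialC a e c (b ^ K) * gcdProd a e)) := by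
          apply mul_le_mul_of_nonneg_left _ (by positivity)
          apply mul_le_mul hW2 _ (by positivity) (by positivity)
          exact mul_le_mul_of_nonneg_left hP2 (by positivity)
      _ = _ := by ring

end Pool.Agent.U464.PD
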